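import Mathlib
import Pool.Agent.Lib.MP_93b520_nt.Main

/-!
For a prime `q > 1000` and a positive integer `n` coprime to `3`, the power `n ^ q` has at most
three nonzero ternary digits if and only if `n = 1`.
-/

set_option autoImplicit false

namespace Pool.Agent.Results.MP_93b520_nt.Ternary

theorem result (n q : ℕ) (hn : 1 ≤ n) (h3 : Nat.gcd n 3 = 1) (hq : q.Prime) (hq0 : 1000 < q) :
    ((Nat.digits 3 (n ^ q)).filter (fun d => d ≠ 0)).length ≤ 3 ↔ n = 1 := by
  constructor
  · intro h
    by_contra h1
    have := Pool.Agent.Lib.MP_93b520_nt.main n q (by omega) h3 hq hq0.le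
    unfold Pool.Agent.Lib.MP_93b520_nt.cnt at this
    omega
  · rintro rfl
    simp

end Pool.Agent.Results.MP_93b520_nt.Ternary
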